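import Mathlib

set_option autoImplicit false

/-!
# Summation over triples
-/

namespace Pool.Agent.H35.FTN

open Finset

variable {ι : Type} [DecidableEq ι]

/-- the averaging step -/
theorem comb (A : Finset ι) (S : ι → ι → ℝ) (T : ι → ι → ι → ℝ) (c : ℝ) (hA : A.Nonempty)
    (hS : ∀ i j, S i j = S j i) (hT : ∀ x y w, T x y w = T x w y)
    (h1 : ∀ x ∈ A, 2 * c - 2 * ∑ y ∈ A, S x y ≤ ∑ y ∈ A, ∑ w ∈ A, (1 - S x y - S x w) * T x y w)
    (h2 : ∀ x ∈ A, ∀ y ∈ A, ∀ w ∈ A, T x y w + (if x = y then S y w else 0) + (if x = w then S y w else 0)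
      ≤ S y w + S x w * T w x y + S x y * T y x w) :
    2 * c ≤ ∑ x ∈ A, ∑ y ∈ A, S x y := by
  set F := ∑ x ∈ A, ∑ y ∈ A, S x y with hF
  set G := ∑ x ∈ A, ∑ y ∈ A, ∑ w ∈ A, T x y w with hG
  set H := ∑ x ∈ A, ∑ y ∈ A, ∑ w ∈ A, S x y * T x y w with hH
  have hN : (0 : ℝ) < A.card := by exact_mod_cast hA.card_pos
  -- first sum
  have s1 : A.card * (2 * c) - 2 * F ≤ G - 2 * H := by
    have := Finset.sum_le_sum h1
    rw [Finset.sum_sub_distrib, Finset.sum_const, nsmul_eq_mul, ← Finset.mul_sum] at this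
    have e : ∑ x ∈ A, ∑ y ∈ A, ∑ w ∈ A, (1 - S x y - S x w) * T x y w = G - 2 * H := by
      have e1 : ∀ x y w, (1 - S x y - S x w) * T x y w = T x y w - S x y * T x y w - S x w * T x y w := by
        intros; ring
      simp_rw [e1, Finset.sum_sub_distrib]
      have e2 : ∑ x ∈ A, ∑ y ∈ A, ∑ w ∈ A, S x w * T x y w = H := by
        rw [hH]
        apply Finset.sum_congr rfl
        intro x _
        rw [Finset.sum_comm]
        apply Finset.sum_congr rfl
        intro y _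
        apply Finset.sum_congr rfl
        intro w _
        rw [hT x w y]
      rw [e2]
      ring
    rw [e] at this
    exact this
  -- second sum
  have s2 : G + F + F ≤ A.card * F + H + H := by
    have := Finset.sum_le_sum (fun x hx => Finset.sum_le_sum (fun y hy => Finset.sum_le_sum (h2 x hx y hy)))
    simp_rw [Finset.sum_add_distrib] at this
    have e1 : ∑ x ∈ A, ∑ y ∈ A, ∑ w ∈ A, (if x = y then S y w else 0) = F := by
      rw [hF]
      apply Finset.sum_congr rfl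
      intro x hx
      have : ∀ y ∈ A, ∑ w ∈ A, (if x = y then S y w else 0) = if x = y then ∑ w ∈ A, S y w else 0 := by
        intro y _
        split_ifs
        · rfl
        · simp
      rw [Finset.sum_congr rfl this, Finset.sum_ite_eq, if_pos hx]
    have e2 : ∑ x ∈ A, ∑ y ∈ A, ∑ w ∈ A, (if x = w then S y w else 0) = F := by
      rw [hF, Finset.sum_comm]
      apply Finset.sum_congr rfl
      intro y hy
      have : ∀ x ∈ A, ∑ w ∈ A, (if x = w then S y w else 0) = S y x := by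
        intro x hx
        rw [Finset.sum_ite_eq, if_pos hx]
      rw [Finset.sum_congr rfl this]
    have e3 : ∑ x ∈ A, ∑ y ∈ A, ∑ w ∈ A, S y w = A.card * F := by
      rw [Finset.sum_const, nsmul_eq_mul]
    have e4 : ∑ x ∈ A, ∑ y ∈ A, ∑ w ∈ A, S x w * T w x y = H := by
      rw [hH]
      have : ∀ x ∈ A, ∑ y ∈ A, ∑ w ∈ A, S x w * T w x y = ∑ w ∈ A, ∑ y ∈ A, S w x * T w x y := by
        intro x _
        rw [Finset.sum_comm]
        apply Finset.sum_congr rfl
        intro w _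
        apply Finset.sum_congr rfl
        intro y _
        rw [hS x w]
      rw [Finset.sum_congr rfl this, Finset.sum_comm]
    have e5 : ∑ x ∈ A, ∑ y ∈ A, ∑ w ∈ A, S x y * T y x w = H := by
      rw [hH, Finset.sum_comm]
      apply Finset.sum_congr rfl
      intro y _
      apply Finset.sum_congr rfl
      intro x _
      apply Finset.sum_congr rfl
      intro w _
      rw [hS x y]
    rw [e1, e2, e3, e4, e5] at this
    linarith
  have s3 : (A.card : ℝ) * (2 * c) ≤ A.card * F := by linarith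
  exact le_of_mul_le_mul_left s3 hN

/-- the absorption average around a point -/
theorem absorb (B : Finset ι) (s : ι → ℝ) (T : ι → ι → ℝ) (c : ℝ) (hs : ∀ w ∈ B, 0 ≤ s w)
    (hs1 : ∑ w ∈ B, s w ≤ 1)
    (hT : ∀ y w, T y w = T w y) (hT0 : ∀ y, T y y = 0)
    (h1 : 2 * c ≤ ∑ y ∈ B, ∑ w ∈ B, T y w)
    (h2 : ∀ z ∈ B, 2 * (c - 1) ≤ ∑ y ∈ B.erase z, ∑ w ∈ B.erase z, T y w) :
    2 * c - 2 * ∑ y ∈ B, s y ≤ ∑ y ∈ B, ∑ w ∈ B, (1 - s y - s w) * T y w := by
  set F := ∑ y ∈ B, ∑ w ∈ B, T y w with hF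
  have h3 : ∀ z ∈ B, ∑ y ∈ B.erase z, ∑ w ∈ B.erase z, T y w = F - 2 * ∑ w ∈ B, T z w := by
    intro z hz
    have e1 : ∀ y ∈ B.erase z, ∑ w ∈ B.erase z, T y w = ∑ w ∈ B, T y w - T y z := by
      intro y _
      rw [← Finset.add_sum_erase B (fun w => T y w) hz]
      ring
    rw [Finset.sum_congr rfl e1, Finset.sum_sub_distrib]
    have e2 : ∑ y ∈ B.erase z, ∑ w ∈ B, T y w = F - ∑ w ∈ B, T z w := by
      rw [hF, ← Finset.add_sum_erase B (fun y => ∑ w ∈ B, T y w) hz]
      ring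
    have e3 : ∑ y ∈ B.erase z, T y z = ∑ w ∈ B, T z w := by
      rw [← Finset.add_sum_erase B (fun w => T z w) hz, hT0, zero_add]
      apply Finset.sum_congr rfl
      intro y _
      exact hT y z
    rw [e2, e3]
    ring
  have h4 : ∑ z ∈ B, s z * (2 * (c - 1)) ≤ ∑ z ∈ B, s z * (F - 2 * ∑ w ∈ B, T z w) := by
    apply Finset.sum_le_sum
    intro z hz
    apply mul_le_mul_of_nonneg_left _ (hs z hz)
    rw [← h3 z hz]
    exact h2 z hz
  have h5 : (1 - ∑ z ∈ B, s z) * (2 * c) ≤ (1 - ∑ z ∈ B, s z) * F :=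
    mul_le_mul_of_nonneg_left h1 (by linarith)
  have h6 : ∑ z ∈ B, s z * (F - 2 * ∑ w ∈ B, T z w) = (∑ z ∈ B, s z) * F - 2 * ∑ z ∈ B, ∑ w ∈ B, s z * T z w := by
    rw [Finset.sum_mul, Finset.mul_sum, ← Finset.sum_sub_distrib]
    apply Finset.sum_congr rfl
    intro z _
    rw [mul_sub, ← Finset.mul_sum]
    ring
  have h7 : ∑ y ∈ B, ∑ w ∈ B, (1 - s y - s w) * T y w = F - 2 * ∑ z ∈ B, ∑ w ∈ B, s z * T z w := by
    have e1 : ∀ y w, (1 - s y - s w) * T y w = T y w - s y * T y w - s w * T y w := by intros; ring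
    simp_rw [e1, Finset.sum_sub_distrib]
    have e2 : ∑ y ∈ B, ∑ w ∈ B, s w * T y w = ∑ z ∈ B, ∑ w ∈ B, s z * T z w := by
      rw [Finset.sum_comm]
      apply Finset.sum_congr rfl
      intro w _
      apply Finset.sum_congr rfl
      intro y _
      rw [hT y w]
    rw [e2]
    ring
  rw [h7]
  rw [← Finset.sum_mul] at h4
  rw [h6] at h4
  nlinarith [h4, h5]

end Pool.Agent.H35.FTN
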