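import Pool.Agent.H35.FTN.Ind

set_option autoImplicit false
set_option linter.unusedSectionVars false

/-!
# Weighted form and the discrete Fejes Toth conjecture for at most twice the dimension many points
-/

namespace Pool.Agent.H35.FTN

open Finset Module Real

section

variable {ι : Type} [DecidableEq ι] [Fintype ι]

/-- the weighted functional -/
noncomputable def Q (S : ι → ι → ℝ) (c : ℝ) (m : ι → ℝ) : ℝ :=
  ∑ i, ∑ j, m i * m j * S i j - 2 * ∑ i, m i + 2 * c

lemma Q_affine (S : ι → ι → ℝ) (hS0 : ∀ i, S i i = 0) (c : ℝ) (m : ι → ℝ) (k : ι) :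
    Q S c m = (1 - m k) * Q S c (Function.update m k 0) + m k * Q S c (Function.update m k 1) := by
  have key : ∀ t : ℝ, Q S c (Function.update m k t) =
      (∑ i ∈ univ.erase k, ∑ j ∈ univ.erase k, m i * m j * S i j - 2 * ∑ i ∈ univ.erase k, m i + 2 * c)
      + t * (∑ j ∈ univ.erase k, m j * (S k j + S j k) - 2) := by
    intro t
    unfold Q
    have hu : ∀ i ∈ univ.erase k, Function.update m k t i = m i := by
      intro i hi
      exact Function.update_of_ne (Finset.ne_of_mem_erase hi) _ _
    have hk : Function.update m k t k = t := Function.update_self _ _ _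
    rw [← Finset.add_sum_erase univ (fun i => Function.update m k t i) (mem_univ k), hk,
      Finset.sum_congr rfl hu,
      ← Finset.add_sum_erase univ (fun i => ∑ j, Function.update m k t i * Function.update m k t j * S i j) (mem_univ k)]
    have e1 : ∑ j, Function.update m k t k * Function.update m k t j * S k j
        = t * ∑ j ∈ univ.erase k, m j * S k j := by
      rw [← Finset.add_sum_erase univ (fun j => Function.update m k t k * Function.update m k t j * S k j) (mem_univ k),
        hS0, mul_zero, zero_add, Finset.mul_sum]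
      apply Finset.sum_congr rfl
      intro j hj
      rw [hu j hj, hk]
      ring
    have e2 : ∑ i ∈ univ.erase k, ∑ j, Function.update m k t i * Function.update m k t j * S i j
        = ∑ i ∈ univ.erase k, ∑ j ∈ univ.erase k, m i * m j * S i j + t * ∑ i ∈ univ.erase k, m i * S i k := by
      rw [Finset.mul_sum, ← Finset.sum_add_distrib]
      apply Finset.sum_congr rfl
      intro i hi
      rw [← Finset.add_sum_erase univ (fun j => Function.update m k t i * Function.update m k t j * S i j) (mem_univ k),
        hu i hi, hk, add_comm]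
      congr 1
      · apply Finset.sum_congr rfl
        intro j hj
        rw [hu j hj]
      · ring
    simp only [e1, e2]
    have e3 : ∑ j ∈ univ.erase k, m j * (S k j + S j k)
        = ∑ j ∈ univ.erase k, m j * S k j + ∑ j ∈ univ.erase k, m j * S j k := by
      rw [← Finset.sum_add_distrib]
      apply Finset.sum_congr rfl
      intro j _
      ring
    rw [e3]
    ring
  have h1 := key (m k)
  rw [Function.update_eq_self] at h1
  rw [h1, key 0, key 1]
  ring

/-- nonnegativity on the cube follows from nonnegativity at its vertices -/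
theorem Q_nonneg (S : ι → ι → ℝ) (hS0 : ∀ i, S i i = 0) (c : ℝ)
    (h : ∀ A : Finset ι, 2 * ((A.card : ℝ) - c) ≤ ∑ i ∈ A, ∑ j ∈ A, S i j)
    (m : ι → ℝ) (hm0 : ∀ i, 0 ≤ m i) (hm1 : ∀ i, m i ≤ 1) : 0 ≤ Q S c m := by
  have main : ∀ T : Finset ι, ∀ m : ι → ℝ, (∀ i ∈ T, 0 ≤ m i ∧ m i ≤ 1) → (∀ i ∉ T, m i = 0 ∨ m i = 1) →
      0 ≤ Q S c m := by
    intro T
    induction T using Finset.induction_on with
    | empty =>
      intro m _ h01
      have h01' : ∀ i, m i = 0 ∨ m i = 1 := fun i => h01 i (by simp)
      set A := univ.filter (fun i => m i = 1) with hA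
      have hmA : ∀ i, m i = if i ∈ A then 1 else 0 := by
        intro i
        rcases h01' i with h' | h'
        · rw [if_neg, h']
          rw [hA, mem_filter, h']
          simp
        · rw [if_pos, h']
          rw [hA, mem_filter]
          exact ⟨mem_univ _, h'⟩
      have h2 := h A
      unfold Q
      have e1 : ∑ i, m i = (A.card : ℝ) := by
        simp_rw [hmA]
        simp
      have e2 : ∑ i, ∑ j, m i * m j * S i j = ∑ i ∈ A, ∑ j ∈ A, S i j := by
        rw [← Finset.sum_filter_add_sum_filter_not univ (fun i => i ∈ A)]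
        have z : ∑ i ∈ univ.filter (fun i => ¬ i ∈ A), ∑ j, m i * m j * S i j = 0 := by
          apply Finset.sum_eq_zero
          intro i hi
          rw [mem_filter] at hi
          apply Finset.sum_eq_zero
          intro j _
          rw [hmA i, if_neg hi.2]
          ring
        rw [z, add_zero, Finset.filter_mem_eq_inter, Finset.univ_inter]
        apply Finset.sum_congr rfl
        intro i hi
        rw [← Finset.sum_filter_add_sum_filter_not univ (fun j => j ∈ A)]
        have z : ∑ j ∈ univ.filter (fun j => ¬ j ∈ A), m i * m j * S i j = 0 := by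
          apply Finset.sum_eq_zero
          intro j hj
          rw [mem_filter] at hj
          rw [hmA j, if_neg hj.2]
          ring
        rw [z, add_zero, Finset.filter_mem_eq_inter, Finset.univ_inter]
        apply Finset.sum_congr rfl
        intro j hj
        rw [hmA i, hmA j, if_pos hi, if_pos hj]
        ring
      rw [e1, e2]
      linarith
    | insert k T hk IH =>
      intro m h1 h01
      rw [Q_affine S hS0 c m k]
      have h2 : ∀ t : ℝ, (t = 0 ∨ t = 1) → 0 ≤ Q S c (Function.update m k t) := by
        intro t ht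
        apply IH
        · intro i hi
          have : i ≠ k := fun h' => hk (h' ▸ hi)
          rw [Function.update_of_ne this]
          exact h1 i (mem_insert_of_mem hi)
        · intro i hi
          by_cases hik : i = k
          · subst hik
            rw [Function.update_self]
            exact ht
          · rw [Function.update_of_ne hik]
            apply h01
            rw [mem_insert]
            tauto
      have h3 := h1 k (mem_insert_self k T)
      have h4 := mul_nonneg (by linarith [h3.2] : 0 ≤ 1 - m k) (h2 0 (Or.inl rfl))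
      have h5 := mul_nonneg h3.1 (h2 1 (Or.inr rfl))
      linarith
  exact main univ m (fun i _ => ⟨hm0 i, hm1 i⟩) (fun i hi => absurd (mem_univ i) hi)

end

section

variable {ι : Type} [DecidableEq ι] [Fintype ι] {E : Type} [NormedAddCommGroup E] [InnerProductSpace ℝ E]
  [FiniteDimensional ℝ E]

lemma theta_eq (v : ι → E) (hv : ∀ i, ‖v i‖ = 1) (i j : ι) :
    arccos |inner ℝ (v i) (v j)| = (π / 2) * (if i = j then 0 else 1 - S0 v i j) := by
  by_cases h : i = j
  · subst h
    rw [if_pos rfl, real_inner_self_eq_norm_sq, hv]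
    simp
  · rw [if_neg h]
    unfold S0 sv cs
    rw [if_neg h, hv, hv, arccos]
    have : (π : ℝ) ≠ 0 := pi_ne_zero
    field_simp

/-- weighted inequality -/
theorem weighted (v : ι → E) (hv : ∀ i, ‖v i‖ = 1) (m : ι → ℝ) (hm0 : ∀ i, 0 ≤ m i) (hm1 : ∀ i, m i ≤ 1) :
    ∑ i, ∑ j, m i * m j * arccos |inner ℝ (v i) (v j)| ≤
      (π / 2) * ((∑ i, m i) ^ 2 - ∑ i, m i ^ 2 - 2 * (∑ i, m i - finrank ℝ E)) := by
  have hne : ∀ i, v i ≠ 0 := by
    intro i h
    have := hv i
    rw [h, norm_zero] at this
    exact zero_ne_one this
  have hQ := Q_nonneg (S0 v) (S0_self v) (finrank ℝ E : ℝ) (by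
    intro A
    have h := main A.card A (⊤ : Submodule ℝ E) v rfl (fun i _ => Submodule.mem_top) (fun i _ => hne i)
    rw [finrank_top] at h
    exact h) m hm0 hm1
  unfold Q at hQ
  have e1 : ∑ i, ∑ j, m i * m j * arccos |inner ℝ (v i) (v j)|
      = (π / 2) * ((∑ i, m i) ^ 2 - ∑ i, m i ^ 2 - ∑ i, ∑ j, m i * m j * S0 v i j) := by
    have e2 : ∀ i j, m i * m j * arccos |inner ℝ (v i) (v j)|
        = (π / 2) * (m i * m j - (if i = j then m i * m j else 0) - m i * m j * S0 v i j) := by
      intro i j
      rw [theta_eq v hv]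
      by_cases h : i = j
      · subst h
        rw [if_pos rfl, if_pos rfl, S0_self]
        ring
      · rw [if_neg h, if_neg h]
        ring
    simp_rw [e2, ← Finset.mul_sum, Finset.sum_sub_distrib]
    congr 2
    congr 1
    · rw [sq, Finset.sum_mul_sum]
    · apply Finset.sum_congr rfl
      intro i _
      rw [Finset.sum_ite_eq, if_pos (mem_univ i)]
      ring
  rw [e1]
  apply mul_le_mul_of_nonneg_left _ (by positivity)
  linarith

lemma orth_theta (n : ℕ) (b : OrthonormalBasis (Fin n) ℝ E) (i j : Fin n) :
    arccos |inner ℝ (b i) (b j)| = (π / 2) * (if i = j then 0 else 1) := by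
  rw [b.inner_eq_ite]
  by_cases h : i = j
  · simp [h]
  · simp [h]

end

/-- number of pairs of indices in the same residue class -/
lemma card_pairs (n N : ℕ) (hn : 0 < n) (hN : N ≤ 2 * n) :
    ∑ i : Fin N, ∑ j : Fin N, (if (i : ℕ) % n = (j : ℕ) % n then 1 else 0 : ℕ) ≤ N + 2 * (N - n) := by
  have h1 : ∀ i j : Fin N, (if (i : ℕ) % n = (j : ℕ) % n then 1 else 0 : ℕ) ≤
      (if i = j then 1 else 0) + (if (j : ℕ) = (i : ℕ) + n then 1 else 0) + (if (i : ℕ) = (j : ℕ) + n then 1 else 0) := by
    intro i j
    by_cases h : (i : ℕ) % n = (j : ℕ) % n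
    · rw [if_pos h]
      have hi := i.2
      have hj := j.2
      have di := Nat.div_add_mod (i : ℕ) n
      have dj := Nat.div_add_mod (j : ℕ) n
      have mi := Nat.mod_lt (i : ℕ) hn
      have qi : (i : ℕ) / n < 2 := by
        rw [Nat.div_lt_iff_lt_mul hn]
        omega
      have qj : (j : ℕ) / n < 2 := by
        rw [Nat.div_lt_iff_lt_mul hn]
        omega
      have ci : (i : ℕ) / n = 0 ∨ (i : ℕ) / n = 1 := Nat.le_one_iff_eq_zero_or_eq_one.1 (Nat.lt_succ_iff.1 qi)
      have cj : (j : ℕ) / n = 0 ∨ (j : ℕ) / n = 1 := Nat.le_one_iff_eq_zero_or_eq_one.1 (Nat.lt_succ_iff.1 qj)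
      rcases ci with ci | ci <;> rcases cj with cj | cj <;> rw [ci] at di <;> rw [cj] at dj
      · have : i = j := by
          apply Fin.ext
          omega
        rw [if_pos this]
        omega
      · have : (j : ℕ) = (i : ℕ) + n := by omega
        rw [if_pos this]
        omega
      · have : (i : ℕ) = (j : ℕ) + n := by omega
        rw [if_pos this]
        omega
      · have : i = j := by
          apply Fin.ext
          omega
        rw [if_pos this]
        omega
    · rw [if_neg h]
      exact Nat.zero_le _
  have h2 : ∀ i : Fin N, ∑ j : Fin N, (if (j : ℕ) = (i : ℕ) + n then 1 else 0 : ℕ) ≤ if (i : ℕ) < N - n then 1 else 0 := by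
    intro i
    rw [Finset.sum_boole]
    by_cases h : (i : ℕ) < N - n
    · rw [if_pos h]
      rw [Nat.cast_id]
      apply Finset.card_le_one.2
      intro a ha b hb
      rw [mem_filter] at ha hb
      apply Fin.ext
      omega
    · rw [if_neg h, Nat.cast_id, Nat.le_zero, Finset.card_eq_zero, Finset.filter_eq_empty_iff]
      intro a _ ha
      have := a.2
      omega
  have h3 : ∑ i : Fin N, (if (i : ℕ) < N - n then 1 else 0 : ℕ) ≤ N - n := by
    rw [Finset.sum_boole, Nat.cast_id]
    calc (univ.filter (fun i : Fin N => (i : ℕ) < N - n)).card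
        ≤ (Finset.range (N - n)).card := by
          apply Finset.card_le_card_of_injOn (fun i : Fin N => (i : ℕ))
          · intro i hi
            rw [mem_coe, mem_filter] at hi
            rw [mem_coe, mem_range]
            exact hi.2
          · intro i _ j _ hij
            exact Fin.ext hij
      _ = N - n := Finset.card_range _
  calc ∑ i : Fin N, ∑ j : Fin N, (if (i : ℕ) % n = (j : ℕ) % n then 1 else 0 : ℕ)
      ≤ ∑ i : Fin N, ∑ j : Fin N, ((if i = j then 1 else 0) + (if (j : ℕ) = (i : ℕ) + n then 1 else 0)
        + (if (i : ℕ) = (j : ℕ) + n then 1 else 0)) :=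
        Finset.sum_le_sum (fun i _ => Finset.sum_le_sum (fun j _ => h1 i j))
    _ = N + ∑ i : Fin N, ∑ j : Fin N, (if (j : ℕ) = (i : ℕ) + n then 1 else 0)
        + ∑ j : Fin N, ∑ i : Fin N, (if (i : ℕ) = (j : ℕ) + n then 1 else 0) := by
        simp_rw [Finset.sum_add_distrib]
        congr 1
        · congr 1
          simp
        · exact Finset.sum_comm
    _ ≤ N + (N - n) + (N - n) := by
        have h4 : ∑ i : Fin N, ∑ j : Fin N, (if (j : ℕ) = (i : ℕ) + n then 1 else 0 : ℕ) ≤ N - n :=
          (Finset.sum_le_sum (fun i _ => h2 i)).trans h3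
        omega
    _ = N + 2 * (N - n) := by omega

end Pool.Agent.H35.FTN
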