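import Pool.Agent.H35.FTN.Vec
import Pool.Agent.H35.FTN.Comb

set_option autoImplicit false

/-!
# The lower bound `N - n` for the energy of `N` lines in dimension `n`
-/

namespace Pool.Agent.H35.FTN

open Finset Module

variable {ι : Type} [DecidableEq ι] {E : Type} [NormedAddCommGroup E] [InnerProductSpace ℝ E]

/-- off-diagonal interaction -/
noncomputable def S0 (v : ι → E) (i j : ι) : ℝ := if i = j then 0 else sv (v i) (v j)

lemma S0_comm (v : ι → E) (i j : ι) : S0 v i j = S0 v j i := by
  unfold S0
  by_cases h : i = j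
  · subst h; rfl
  · rw [if_neg h, if_neg (fun h' => h h'.symm), sv_comm]

lemma S0_self (v : ι → E) (i : ι) : S0 v i i = 0 := by
  unfold S0
  rw [if_pos rfl]

lemma S0_nonneg (v : ι → E) (i j : ι) : 0 ≤ S0 v i j := by
  unfold S0
  split_ifs
  · exact le_rfl
  · exact sv_nonneg _ _

lemma pr_mem (x y : E) (hx : x ≠ 0) (W : Submodule ℝ E) (hxW : x ∈ W) (hyW : y ∈ W) :
    pr x y ∈ (Submodule.span ℝ {x})ᗮ ⊓ W := by
  rw [Submodule.mem_inf]
  constructor
  · rw [Submodule.mem_orthogonal_singleton_iff_inner_right]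
    unfold pr
    rw [inner_sub_right, real_inner_smul_right, real_inner_self_eq_norm_sq]
    have := norm_pos_iff.2 hx
    field_simp
    ring
  · unfold pr
    exact W.sub_mem hyW (W.smul_mem _ hxW)

lemma finrank_step (x : E) (hx : x ≠ 0) (W : Submodule ℝ E) [FiniteDimensional ℝ W] (hxW : x ∈ W) :
    (finrank ℝ ((Submodule.span ℝ {x})ᗮ ⊓ W : Submodule ℝ E) : ℝ) = (finrank ℝ W : ℝ) - 1 := by
  have h := Submodule.finrank_add_inf_finrank_orthogonal (K₁ := Submodule.span ℝ {x}) (K₂ := W)
    (by rw [Submodule.span_singleton_le_iff_mem]; exact hxW)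
  rw [finrank_span_singleton hx] at h
  have : (finrank ℝ W : ℝ) = 1 + (finrank ℝ ((Submodule.span ℝ {x})ᗮ ⊓ W : Submodule ℝ E) : ℝ) := by
    exact_mod_cast h.symm
  linarith

lemma erase_sum (A : Finset ι) (S : ι → ι → ℝ) (hS : ∀ i j, S i j = S j i) (hS0 : ∀ i, S i i = 0)
    (x : ι) (hx : x ∈ A) :
    ∑ i ∈ A, ∑ j ∈ A, S i j = ∑ i ∈ A.erase x, ∑ j ∈ A.erase x, S i j + 2 * ∑ j ∈ A, S x j := by
  have e1 : ∀ i ∈ A, ∑ j ∈ A, S i j = S i x + ∑ j ∈ A.erase x, S i j := by
    intro i _
    exact (Finset.add_sum_erase A (fun j => S i j) hx).symm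
  have e2 := Finset.add_sum_erase A (fun i => ∑ j ∈ A, S i j) hx
  rw [← e2]
  have e3 : ∑ i ∈ A.erase x, ∑ j ∈ A, S i j = ∑ i ∈ A.erase x, S i x + ∑ i ∈ A.erase x, ∑ j ∈ A.erase x, S i j := by
    rw [← Finset.sum_add_distrib]
    apply Finset.sum_congr rfl
    intro i hi
    exact e1 i (Finset.mem_of_mem_erase hi)
  have e4 : ∑ i ∈ A.erase x, S i x = ∑ j ∈ A, S x j := by
    rw [← Finset.add_sum_erase A (fun j => S x j) hx, hS0, zero_add]
    apply Finset.sum_congr rfl
    intro i _
    exact hS i x
  simp only [e3, e4]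
  ring

theorem main : ∀ (m : ℕ) (A : Finset ι) (W : Submodule ℝ E) [FiniteDimensional ℝ W] (v : ι → E),
    A.card = m → (∀ i ∈ A, v i ∈ W) → (∀ i ∈ A, v i ≠ 0) →
    2 * ((m : ℝ) - finrank ℝ W) ≤ ∑ i ∈ A, ∑ j ∈ A, S0 v i j := by
  intro m
  induction m using Nat.strong_induction_on with
  | _ m IH =>
    intro A W _ v hm hW h0
    rcases A.eq_empty_or_nonempty with rfl | hA
    · simp only [Finset.card_empty] at hm
      subst hm
      simp
    have hm1 : 1 ≤ m := by rw [← hm]; exact hA.card_pos
    by_cases hbig : ∃ x ∈ A, 1 ≤ ∑ y ∈ A, S0 v x y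
    · obtain ⟨x, hx, hD⟩ := hbig
      have h1 := IH (m - 1) (by omega) (A.erase x) W v (by rw [Finset.card_erase_of_mem hx, hm])
        (fun i hi => hW i (Finset.mem_of_mem_erase hi)) (fun i hi => h0 i (Finset.mem_of_mem_erase hi))
      rw [Nat.cast_sub hm1] at h1
      rw [erase_sum A (S0 v) (S0_comm v) (S0_self v) x hx]
      push_cast at h1
      linarith
    push Not at hbig
    have hlt : ∀ x ∈ A, ∀ y ∈ A, x ≠ y → sv (v x) (v y) < 1 := by
      intro x hx y hy hxy
      have h1 : S0 v x y ≤ ∑ y ∈ A, S0 v x y :=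
        Finset.single_le_sum (f := fun y => S0 v x y) (fun i _ => S0_nonneg v x i) hy
      have h2 : S0 v x y = sv (v x) (v y) := by
        unfold S0
        rw [if_neg hxy]
      have h3 := hbig x hx
      linarith
    let T : ι → ι → ι → ℝ := fun x y w => if x = y ∨ x = w then 0 else S0 (fun i => pr (v x) (v i)) y w
    have hT : ∀ x y w, T x y w = T x w y := by
      intro x y w
      show (if x = y ∨ x = w then 0 else S0 (fun i => pr (v x) (v i)) y w)
        = if x = w ∨ x = y then 0 else S0 (fun i => pr (v x) (v i)) w y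
      by_cases h : x = y ∨ x = w
      · rw [if_pos h, if_pos h.symm]
      · rw [if_neg h, if_neg (fun h' => h h'.symm), S0_comm]
    have hc := comb A (S0 v) T ((m : ℝ) - finrank ℝ W) hA (S0_comm v) hT ?_ ?_
    · exact hc
    · -- the induction step around `x`
      intro x hx
      have hxn : v x ≠ 0 := h0 x hx
      have hxW := hW x hx
      have hfr := finrank_step (v x) hxn W hxW
      set W' : Submodule ℝ E := (Submodule.span ℝ {v x})ᗮ ⊓ W with hW'
      have hv'W : ∀ i ∈ A, pr (v x) (v i) ∈ W' := fun i hi => pr_mem (v x) (v i) hxn W hxW (hW i hi)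
      have hv'0 : ∀ i ∈ A.erase x, pr (v x) (v i) ≠ 0 := by
        intro i hi
        rw [Finset.mem_erase] at hi
        exact pr_ne_zero (v x) (v i) hxn (h0 i hi.2) (hlt x hx i hi.2 (fun h => hi.1 h.symm))
      have hcard : (A.erase x).card = m - 1 := by rw [Finset.card_erase_of_mem hx, hm]
      have hsum : ∑ w ∈ A.erase x, S0 v x w = ∑ w ∈ A, S0 v x w := by
        rw [← Finset.add_sum_erase A (fun j => S0 v x j) hx, S0_self, zero_add]
      have h1 := IH (m - 1) (by omega) (A.erase x) W' (fun i => pr (v x) (v i)) hcard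
        (fun i hi => hv'W i (Finset.mem_of_mem_erase hi)) hv'0
      have h2 : ∀ z ∈ A.erase x, 2 * (((m : ℝ) - finrank ℝ W) - 1) ≤
          ∑ y ∈ (A.erase x).erase z, ∑ w ∈ (A.erase x).erase z, S0 (fun i => pr (v x) (v i)) y w := by
        intro z hz
        have hm2 : 1 ≤ m - 1 := by
          rw [← hcard]
          exact Finset.card_pos.2 ⟨z, hz⟩
        have h3 := IH (m - 2) (by omega) ((A.erase x).erase z) W' (fun i => pr (v x) (v i))
          (by rw [Finset.card_erase_of_mem hz, hcard]; omega)
          (fun i hi => hv'W i (Finset.mem_of_mem_erase (Finset.mem_of_mem_erase hi)))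
          (fun i hi => hv'0 i (Finset.mem_of_mem_erase hi))
        rw [hfr, Nat.cast_sub (by omega : 2 ≤ m)] at h3
        push_cast at h3
        linarith
      rw [hfr, Nat.cast_sub hm1] at h1
      push_cast at h1
      have h4 := absorb (A.erase x) (S0 v x) (S0 (fun i => pr (v x) (v i))) ((m : ℝ) - finrank ℝ W)
        (fun w _ => S0_nonneg v x w) (by rw [hsum]; exact (hbig x hx).le) (S0_comm _) (S0_self _)
        (by linarith) h2
      rw [hsum] at h4
      refine h4.trans (le_of_eq ?_)
      have hTe : ∀ y ∈ A.erase x, ∀ w ∈ A.erase x, T x y w = S0 (fun i => pr (v x) (v i)) y w := by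
        intro y hy w hw
        rw [Finset.mem_erase] at hy hw
        show (if x = y ∨ x = w then 0 else S0 (fun i => pr (v x) (v i)) y w) = _
        rw [if_neg]
        rintro (h | h)
        · exact hy.1 h.symm
        · exact hw.1 h.symm
      have hTx : ∀ w, T x x w = 0 := by
        intro w
        show (if x = x ∨ x = w then 0 else S0 (fun i => pr (v x) (v i)) x w) = 0
        rw [if_pos (Or.inl rfl)]
      have hTx' : ∀ y, T x y x = 0 := by
        intro y
        rw [hT, hTx]
      rw [← Finset.add_sum_erase A (fun y => ∑ w ∈ A, (1 - S0 v x y - S0 v x w) * T x y w) hx]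
      have e1 : ∑ w ∈ A, (1 - S0 v x x - S0 v x w) * T x x w = 0 := by
        apply Finset.sum_eq_zero
        intro w _
        rw [hTx, mul_zero]
      rw [e1, zero_add]
      apply Finset.sum_congr rfl
      intro y hy
      rw [← Finset.add_sum_erase A (fun w => (1 - S0 v x y - S0 v x w) * T x y w) hx, hTx', mul_zero, zero_add]
      apply Finset.sum_congr rfl
      intro w hw
      rw [hTe y hy w hw]
    · -- the three-vector inequality
      intro x hx y hy w hw
      have hTdef : ∀ a b c, T a b c = if a = b ∨ a = c then 0 else S0 (fun i => pr (v a) (v i)) b c :=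
        fun _ _ _ => rfl
      by_cases hxy : x = y
      · subst hxy
        rw [hTdef x x w, hTdef w x x, S0_self, S0_self]
        by_cases hxw : x = w
        · subst hxw
          simp [S0_self]
        · simp [hxw]
      by_cases hxw : x = w
      · subst hxw
        rw [hTdef x y x, if_pos (Or.inr rfl), if_neg hxy, if_pos rfl, S0_self, hTdef y x x, S0_self]
        simp
      rw [if_neg hxy, if_neg hxw, add_zero, add_zero]
      by_cases hyw : y = w
      · subst hyw
        rw [hTdef x y y, S0_self, S0_self, hTdef y x y]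
        simp
      have e1 : T x y w = sv (pr (v x) (v y)) (pr (v x) (v w)) := by
        rw [hTdef, if_neg (by tauto)]
        unfold S0
        rw [if_neg hyw]
      have e2 : T w x y = sv (pr (v w) (v x)) (pr (v w) (v y)) := by
        rw [hTdef, if_neg (by rintro (h | h); exacts [hxw h.symm, hyw h.symm])]
        unfold S0
        rw [if_neg hxy]
      have e3 : T y x w = sv (pr (v y) (v x)) (pr (v y) (v w)) := by
        rw [hTdef, if_neg (by rintro (h | h); exacts [hxy h.symm, hyw h])]
        unfold S0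
        rw [if_neg hxw]
      have f1 : S0 v y w = sv (v y) (v w) := by unfold S0; rw [if_neg hyw]
      have f2 : S0 v x w = sv (v x) (v w) := by unfold S0; rw [if_neg hxw]
      have f3 : S0 v x y = sv (v x) (v y) := by unfold S0; rw [if_neg hxy]
      rw [e1, e2, e3, f1, f2, f3]
      exact tw (v x) (v y) (v w) (h0 x hx) (h0 y hy) (h0 w hw) (hlt x hx y hy hxy) (hlt x hx w hw hxw)
        (hlt y hy w hw hyw)

end Pool.Agent.H35.FTN
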