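import Mathlib

set_option autoImplicit false

/-!
# A sharp inequality for right spherical triangles
-/

namespace Pool.Agent.H35.FTN

open Real Set

/-- the difference of the two sides -/
noncomputable def Dfun (g a : ℝ) : ℝ :=
  g * arcsin (tan a * tan g) - (π / 2) * (arcsin (sin a / cos g) - a)

lemma cos_ident (a g : ℝ) : cos a ^ 2 * cos g ^ 2 - sin a ^ 2 * sin g ^ 2 = cos a ^ 2 - sin g ^ 2 := by
  have h1 := sin_sq_add_cos_sq a
  have h2 := sin_sq_add_cos_sq g
  have h3 : cos g ^ 2 = 1 - sin g ^ 2 := by linarith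
  have h4 : sin a ^ 2 = 1 - cos a ^ 2 := by linarith
  rw [h3, h4]
  ring

lemma cos_ident2 (a g : ℝ) : cos g ^ 2 - sin a ^ 2 = cos a ^ 2 - sin g ^ 2 := by
  have h1 := sin_sq_add_cos_sq a
  have h2 := sin_sq_add_cos_sq g
  linarith

lemma hasDeriv (g a : ℝ) (hg0 : 0 < g) (hg : g < π / 2) (ha0 : 0 < a) (ha : a < π / 2 - g) :
    HasDerivAt (Dfun g) (g * (sin g / (cos a * √(cos a ^ 2 - sin g ^ 2)))
      - (π / 2) * (cos a / √(cos a ^ 2 - sin g ^ 2) - 1)) a := by
  have hcg : 0 < cos g := cos_pos_of_mem_Ioo ⟨by linarith [pi_pos], hg⟩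
  have hca : 0 < cos a := cos_pos_of_mem_Ioo ⟨by linarith [pi_pos], by linarith⟩
  have hsg : 0 < sin g := sin_pos_of_pos_of_lt_pi hg0 (by linarith [pi_pos])
  have hsa : 0 < sin a := sin_pos_of_pos_of_lt_pi ha0 (by linarith [pi_pos])
  have hcs : sin g < cos a := by
    rw [← cos_pi_div_two_sub]
    exact cos_lt_cos_of_nonneg_of_le_pi_div_two ha0.le (by linarith) (by linarith)
  have hw2 : 0 < cos a ^ 2 - sin g ^ 2 := by nlinarith
  set w := √(cos a ^ 2 - sin g ^ 2) with hw
  have hwp : 0 < w := sqrt_pos.2 hw2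
  have hww : w ^ 2 = cos a ^ 2 - sin g ^ 2 := sq_sqrt hw2.le
  -- first arcsin
  have e1 : √(1 - (tan a * tan g) ^ 2) = w / (cos a * cos g) := by
    rw [sqrt_eq_iff_mul_self_eq_of_pos (by positivity)]
    rw [tan_eq_sin_div_cos, tan_eq_sin_div_cos]
    field_simp
    have := cos_ident a g
    nlinarith
  have n1 : tan a * tan g < 1 := by
    rw [tan_eq_sin_div_cos, tan_eq_sin_div_cos, div_mul_div_comm, div_lt_one (by positivity)]
    have := cos_ident a g
    have h5 : (sin a * sin g) ^ 2 < (cos a * cos g) ^ 2 := by nlinarith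
    exact lt_of_pow_lt_pow_left₀ 2 (by positivity) h5
  have p1 : 0 < tan a * tan g := by
    rw [tan_eq_sin_div_cos, tan_eq_sin_div_cos]
    positivity
  have e2 : √(1 - (sin a / cos g) ^ 2) = w / cos g := by
    rw [sqrt_eq_iff_mul_self_eq_of_pos (by positivity)]
    field_simp
    have := cos_ident2 a g
    nlinarith
  have n2 : sin a / cos g < 1 := by
    rw [div_lt_one hcg]
    have := cos_ident2 a g
    have h5 : (sin a) ^ 2 < (cos g) ^ 2 := by nlinarith
    exact lt_of_pow_lt_pow_left₀ 2 (by positivity) h5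
  have p2 : 0 < sin a / cos g := by positivity
  have d1 : HasDerivAt (fun a => arcsin (tan a * tan g)) (sin g / (cos a * w)) a := by
    have h := (hasDerivAt_arcsin (x := tan a * tan g) (by linarith) (by linarith)).comp a
      ((hasDerivAt_tan hca.ne').mul_const (tan g))
    refine h.congr_deriv ?_
    rw [e1, tan_eq_sin_div_cos]
    field_simp
  have d2 : HasDerivAt (fun a => arcsin (sin a / cos g)) (cos a / w) a := by
    have h := (hasDerivAt_arcsin (x := sin a / cos g) (by linarith) (by linarith)).comp a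
      ((hasDerivAt_sin a).div_const (cos g))
    refine h.congr_deriv ?_
    rw [e2]
    field_simp
  exact (d1.const_mul g).sub ((d2.sub (hasDerivAt_id' a)).const_mul (π / 2))

lemma contD (g : ℝ) (hg0 : 0 < g) (hg : g < π / 2) : ContinuousOn (Dfun g) (Icc 0 (π / 2 - g)) := by
  unfold Dfun
  apply ContinuousOn.sub
  · apply ContinuousOn.mul continuousOn_const
    apply continuous_arcsin.comp_continuousOn
    apply ContinuousOn.mul _ continuousOn_const
    intro a ha
    apply ContinuousAt.continuousWithinAt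
    apply continuousAt_tan.2
    exact (cos_pos_of_mem_Ioo ⟨by linarith [pi_pos, ha.1], by linarith [ha.2]⟩).ne'
  · apply ContinuousOn.mul continuousOn_const
    apply ContinuousOn.sub _ continuousOn_id
    apply continuous_arcsin.comp_continuousOn
    exact (continuous_sin.div_const _).continuousOn

lemma D_zero (g : ℝ) : Dfun g 0 = 0 := by
  unfold Dfun
  simp

lemma D_end (g : ℝ) (hg0 : 0 < g) (hg : g < π / 2) : Dfun g (π / 2 - g) = 0 := by
  have hcg : 0 < cos g := cos_pos_of_mem_Ioo ⟨by linarith [pi_pos], hg⟩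
  have hsg : 0 < sin g := sin_pos_of_pos_of_lt_pi hg0 (by linarith [pi_pos])
  unfold Dfun
  have h1 : tan (π / 2 - g) * tan g = 1 := by
    rw [tan_eq_sin_div_cos, tan_eq_sin_div_cos, sin_pi_div_two_sub, cos_pi_div_two_sub]
    field_simp
  have h2 : sin (π / 2 - g) / cos g = 1 := by
    rw [sin_pi_div_two_sub]
    field_simp
  rw [h1, h2, arcsin_one]
  ring

/-- the sign of the derivative -/
lemma deriv_sign (g a : ℝ) (hg0 : 0 < g) (hg : g < π / 2) (ha0 : 0 < a) (ha : a < π / 2 - g) :
    (g ^ 2 * sin g ≤ cos a ^ 2 * ((π / 2) * (2 * g - (π / 2) * sin g)) →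
      0 ≤ g * (sin g / (cos a * √(cos a ^ 2 - sin g ^ 2)))
      - (π / 2) * (cos a / √(cos a ^ 2 - sin g ^ 2) - 1)) ∧
    (cos a ^ 2 * ((π / 2) * (2 * g - (π / 2) * sin g)) ≤ g ^ 2 * sin g →
      g * (sin g / (cos a * √(cos a ^ 2 - sin g ^ 2)))
      - (π / 2) * (cos a / √(cos a ^ 2 - sin g ^ 2) - 1) ≤ 0) := by
  have hcg : 0 < cos g := cos_pos_of_mem_Ioo ⟨by linarith [pi_pos], hg⟩
  have hca : 0 < cos a := cos_pos_of_mem_Ioo ⟨by linarith [pi_pos], by linarith⟩
  have hsg : 0 < sin g := sin_pos_of_pos_of_lt_pi hg0 (by linarith [pi_pos])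
  have hcs : sin g < cos a := by
    rw [← cos_pi_div_two_sub]
    exact cos_lt_cos_of_nonneg_of_le_pi_div_two ha0.le (by linarith) (by linarith)
  have hw2 : 0 < cos a ^ 2 - sin g ^ 2 := by nlinarith
  set w := √(cos a ^ 2 - sin g ^ 2) with hw
  have hwp : 0 < w := sqrt_pos.2 hw2
  have hww : w ^ 2 = cos a ^ 2 - sin g ^ 2 := sq_sqrt hw2.le
  have hR : 0 < π / 2 := by positivity
  have hJ : g ≤ (π / 2) * sin g := by
    have h := mul_le_sin hg0.le hg.le
    have h' : (π / 2) * (2 / π * g) ≤ (π / 2) * sin g := mul_le_mul_of_nonneg_left h hR.le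
    have h'' : (π / 2) * (2 / π * g) = g := by field_simp
    linarith
  set R := π / 2 with hRdef
  have hpos : 0 ≤ R * cos a ^ 2 - g * sin g := by
    have h1 : g * sin g ≤ R * sin g * sin g := mul_le_mul_of_nonneg_right hJ hsg.le
    have h2 : R * (sin g * sin g) ≤ R * (cos a * cos a) :=
      mul_le_mul_of_nonneg_left (mul_le_mul hcs.le hcs.le hsg.le hca.le) hR.le
    nlinarith
  have heq : g * (sin g / (cos a * w)) - R * (cos a / w - 1)
      = (R * cos a * w - (R * cos a ^ 2 - g * sin g)) / (cos a * w) := by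
    field_simp
    ring
  have hsq : (R * cos a * w) ^ 2 - (R * cos a ^ 2 - g * sin g) ^ 2
      = sin g * (cos a ^ 2 * (R * (2 * g - R * sin g)) - g ^ 2 * sin g) := by
    have : (R * cos a * w) ^ 2 = R ^ 2 * cos a ^ 2 * w ^ 2 := by ring
    rw [this, hww]
    ring
  rw [heq]
  constructor
  · intro h
    apply div_nonneg _ (by positivity)
    have h1 : (R * cos a ^ 2 - g * sin g) ^ 2 ≤ (R * cos a * w) ^ 2 := by
      have : 0 ≤ sin g * (cos a ^ 2 * (R * (2 * g - R * sin g)) - g ^ 2 * sin g) :=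
        mul_nonneg hsg.le (by linarith)
      linarith
    have h2 := abs_le_of_sq_le_sq' h1 (by positivity)
    linarith [h2.2]
  · intro h
    apply div_nonpos_of_nonpos_of_nonneg _ (by positivity)
    have h1 : (R * cos a * w) ^ 2 ≤ (R * cos a ^ 2 - g * sin g) ^ 2 := by
      have : 0 ≤ sin g * (g ^ 2 * sin g - cos a ^ 2 * (R * (2 * g - R * sin g))) :=
        mul_nonneg hsg.le (by linarith)
      linarith
    have h2 := abs_le_of_sq_le_sq' h1 hpos
    linarith [h2.2]

theorem D_nonneg (g a : ℝ) (hg0 : 0 < g) (hg : g < π / 2) (ha0 : 0 < a) (ha : a < π / 2 - g) :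
    0 ≤ Dfun g a := by
  have hsg : 0 < sin g := sin_pos_of_pos_of_lt_pi hg0 (by linarith [pi_pos])
  have hK : 0 < (π / 2) * (2 * g - (π / 2) * sin g) := by
    apply mul_pos (by positivity)
    have h1 : sin g < g := sin_lt hg0
    have h2 : π / 2 < 2 := by linarith [pi_lt_four]
    nlinarith
  rcases le_total (g ^ 2 * sin g) (cos a ^ 2 * ((π / 2) * (2 * g - (π / 2) * sin g))) with h | h
  · have hmono : MonotoneOn (Dfun g) (Icc 0 a) := by
      apply monotoneOn_of_deriv_nonneg (convex_Icc _ _)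
      · exact (contD g hg0 hg).mono (Icc_subset_Icc_right ha.le)
      · intro b hb
        rw [interior_Icc] at hb
        exact (hasDeriv g b hg0 hg hb.1 (hb.2.trans ha)).differentiableAt.differentiableWithinAt
      · intro b hb
        rw [interior_Icc] at hb
        rw [(hasDeriv g b hg0 hg hb.1 (hb.2.trans ha)).deriv]
        apply (deriv_sign g b hg0 hg hb.1 (hb.2.trans ha)).1
        refine h.trans (mul_le_mul_of_nonneg_right ?_ hK.le)
        have h3 : cos a ≤ cos b := cos_le_cos_of_nonneg_of_le_pi hb.1.le (by linarith [pi_pos]) hb.2.le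
        have h4 : 0 < cos a := cos_pos_of_mem_Ioo ⟨by linarith [pi_pos], by linarith⟩
        exact pow_le_pow_left₀ h4.le h3 2
    have := hmono (left_mem_Icc.2 ha0.le) (right_mem_Icc.2 ha0.le) ha0.le
    rw [D_zero] at this
    exact this
  · have hanti : AntitoneOn (Dfun g) (Icc a (π / 2 - g)) := by
      apply antitoneOn_of_deriv_nonpos (convex_Icc _ _)
      · exact (contD g hg0 hg).mono (Icc_subset_Icc_left ha0.le)
      · intro b hb
        rw [interior_Icc] at hb
        exact (hasDeriv g b hg0 hg (ha0.trans hb.1) hb.2).differentiableAt.differentiableWithinAt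
      · intro b hb
        rw [interior_Icc] at hb
        rw [(hasDeriv g b hg0 hg (ha0.trans hb.1) hb.2).deriv]
        apply (deriv_sign g b hg0 hg (ha0.trans hb.1) hb.2).2
        refine le_trans (mul_le_mul_of_nonneg_right ?_ hK.le) h
        have h3 : cos b ≤ cos a := cos_le_cos_of_nonneg_of_le_pi ha0.le (by linarith [pi_pos, hb.2]) hb.1.le
        have h4 : 0 < cos b := cos_pos_of_mem_Ioo ⟨by linarith [pi_pos, hb.1], by linarith [hb.2]⟩
        exact pow_le_pow_left₀ h4.le h3 2
    have := hanti (left_mem_Icc.2 ha.le) (right_mem_Icc.2 ha.le) ha.le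
    rw [D_end g hg0 hg] at this
    exact this

/-- the inequality for right spherical triangles -/
theorem star (a g : ℝ) (ha : 0 ≤ a) (hg : 0 ≤ g) (h : a + g ≤ π / 2) :
    (π / 2) * (arcsin (sin a / cos g) - a) ≤ g * arcsin (tan a * tan g) := by
  rcases hg.eq_or_lt with rfl | hg0
  · have h1 : arcsin (sin a) = a := arcsin_sin (by linarith [pi_pos]) (by linarith)
    simp [h1]
  rcases ha.eq_or_lt with rfl | ha0
  · simp
  rcases h.eq_or_lt with h' | h'
  · have ha' : a = π / 2 - g := by linarith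
    have h2 := D_end g hg0 (by linarith)
    unfold Dfun at h2
    rw [ha']
    linarith
  · have h2 := D_nonneg g a hg0 (by linarith) ha0 (by linarith)
    unfold Dfun at h2
    linarith

/-- the same inequality in terms of sines -/
theorem star' (t r : ℝ) (ht : 0 ≤ t) (hr : 0 ≤ r) (h : t ^ 2 + r ^ 2 ≤ 1) :
    (π / 2) * (arcsin (t / √(1 - r ^ 2)) - arcsin t)
      ≤ arcsin r * arcsin (t / √(1 - t ^ 2) * (r / √(1 - r ^ 2))) := by
  have ht1 : t ≤ 1 := by nlinarith
  have hr1 : r ≤ 1 := by nlinarith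
  have h0 : arcsin t + arcsin r ≤ π / 2 := by
    have h1 : t ≤ sin (π / 2 - arcsin r) := by
      rw [sin_pi_div_two_sub, cos_arcsin]
      apply le_sqrt_of_sq_le
      linarith
    have h2 : arcsin t ≤ arcsin (sin (π / 2 - arcsin r)) := arcsin_le_arcsin h1
    rw [arcsin_sin (by linarith [arcsin_le_pi_div_two r, pi_pos]) (by linarith [arcsin_nonneg.2 hr])] at h2
    linarith
  have h3 := star (arcsin t) (arcsin r) (arcsin_nonneg.2 ht) (arcsin_nonneg.2 hr) h0
  rw [sin_arcsin (by linarith) ht1, cos_arcsin, tan_arcsin, tan_arcsin] at h3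
  exact h3

end Pool.Agent.H35.FTN
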