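import Pool.Agent.H35.FTN.Star

set_option autoImplicit false

/-!
# The three-vector inequality for conditioned acute angles
-/

namespace Pool.Agent.H35.FTN

open Real Set

lemma L1 (a b a' b' c : ℝ) (ha : 0 ≤ a) (hb : 0 ≤ b) (ha' : 0 ≤ a') (hb' : 0 ≤ b')
    (h1 : a ^ 2 + a' ^ 2 = 1) (h2 : b ^ 2 + b' ^ 2 = 1) (h : a * b - a' * b' ≤ c) :
    arcsin a + arcsin b ≤ π / 2 + arcsin c := by
  have e1 : √(1 - a ^ 2) = a' := by
    rw [show 1 - a ^ 2 = a' ^ 2 by linarith]; exact sqrt_sq ha'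
  have e2 : √(1 - b ^ 2) = b' := by
    rw [show 1 - b ^ 2 = b' ^ 2 by linarith]; exact sqrt_sq hb'
  have ha1 : a ≤ 1 := by nlinarith
  have hb1 : b ≤ 1 := by nlinarith
  have h3 : sin (arcsin a + arcsin b - π / 2) ≤ c := by
    rw [sin_sub_pi_div_two, cos_add, cos_arcsin, cos_arcsin, sin_arcsin (by linarith) ha1,
      sin_arcsin (by linarith) hb1, e1, e2]
    linarith
  have h4 := arcsin_le_arcsin h3
  rw [arcsin_sin (by linarith [arcsin_nonneg.2 ha, arcsin_nonneg.2 hb])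
    (by linarith [arcsin_le_pi_div_two a, arcsin_le_pi_div_two b, pi_pos])] at h4
  linarith

lemma L2 (a b a' b' c : ℝ) (ha : 0 ≤ a) (hb : 0 ≤ b) (ha' : 0 ≤ a') (hb' : 0 ≤ b')
    (h1 : a ^ 2 + a' ^ 2 = 1) (h2 : b ^ 2 + b' ^ 2 = 1) (h : c ≤ a' * b' - a * b) :
    arcsin a + arcsin b + arcsin c ≤ π / 2 := by
  have e1 : √(1 - a ^ 2) = a' := by
    rw [show 1 - a ^ 2 = a' ^ 2 by linarith]; exact sqrt_sq ha'
  have e2 : √(1 - b ^ 2) = b' := by
    rw [show 1 - b ^ 2 = b' ^ 2 by linarith]; exact sqrt_sq hb'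
  have ha1 : a ≤ 1 := by nlinarith
  have hb1 : b ≤ 1 := by nlinarith
  have h3 : c ≤ sin (π / 2 - (arcsin a + arcsin b)) := by
    rw [sin_pi_div_two_sub, cos_add, cos_arcsin, cos_arcsin, sin_arcsin (by linarith) ha1,
      sin_arcsin (by linarith) hb1, e1, e2]
    linarith
  have h4 := arcsin_le_arcsin h3
  rw [arcsin_sin (by linarith [arcsin_le_pi_div_two a, arcsin_le_pi_div_two b])
    (by linarith [arcsin_nonneg.2 ha, arcsin_nonneg.2 hb])] at h4
  linarith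

/-- lower version of `L1` -/
lemma L3 (a b a' b' c : ℝ) (ha : 0 ≤ a) (hb : 0 ≤ b) (ha' : 0 ≤ a') (hb' : 0 ≤ b')
    (h1 : a ^ 2 + a' ^ 2 = 1) (h2 : b ^ 2 + b' ^ 2 = 1) (h : c ≤ a * b - a' * b') :
    π / 2 + arcsin c ≤ arcsin a + arcsin b := by
  have e1 : √(1 - a ^ 2) = a' := by
    rw [show 1 - a ^ 2 = a' ^ 2 by linarith]; exact sqrt_sq ha'
  have e2 : √(1 - b ^ 2) = b' := by
    rw [show 1 - b ^ 2 = b' ^ 2 by linarith]; exact sqrt_sq hb'
  have ha1 : a ≤ 1 := by nlinarith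
  have hb1 : b ≤ 1 := by nlinarith
  have h3 : c ≤ sin (arcsin a + arcsin b - π / 2) := by
    rw [sin_sub_pi_div_two, cos_add, cos_arcsin, cos_arcsin, sin_arcsin (by linarith) ha1,
      sin_arcsin (by linarith) hb1, e1, e2]
    linarith
  have h4 := arcsin_le_arcsin h3
  rw [arcsin_sin (by linarith [arcsin_nonneg.2 ha, arcsin_nonneg.2 hb])
    (by linarith [arcsin_le_pi_div_two a, arcsin_le_pi_div_two b, pi_pos])] at h4
  linarith

/-- the right triangle step -/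
lemma right_step (p q r : ℝ) (hp : p ^ 2 < 1) (hr0 : 0 ≤ r) (hr : r ^ 2 < 1)
    (hD : 0 ≤ 1 - p ^ 2 - q ^ 2 - r ^ 2 + 2 * p * q * r)
    (Z : ℝ) (hZ : 0 < Z) (hZ2 : Z ^ 2 = q ^ 2 + r ^ 2 - 2 * p * q * r) :
    (π / 2) * (arcsin (|q - p * r| / Z / √(1 - r ^ 2)) - arcsin (|q - p * r| / Z))
      ≤ arcsin r * arcsin (|q - p * r| / (√(1 - p ^ 2) * √(1 - r ^ 2))) := by
  have hv : 0 < √(1 - r ^ 2) := sqrt_pos.2 (by linarith)
  have hm : 0 < √(1 - p ^ 2) := sqrt_pos.2 (by linarith)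
  rcases hr0.eq_or_lt with h0 | h0
  · subst h0
    simp
  · have hsq : |q - p * r| ^ 2 = (q - p * r) ^ 2 := sq_abs _
    have ht : (|q - p * r| / Z) ^ 2 = (q - p * r) ^ 2 / Z ^ 2 := by rw [div_pow, hsq]
    have h1 : 1 - (|q - p * r| / Z) ^ 2 = (r * √(1 - p ^ 2) / Z) ^ 2 := by
      rw [ht, div_pow, mul_pow, sq_sqrt (by linarith : (0 : ℝ) ≤ 1 - p ^ 2)]
      have : Z ^ 2 ≠ 0 := by positivity
      field_simp
      rw [hZ2]
      ring
    have h2 := star' (|q - p * r| / Z) r (by positivity) hr0 (by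
      rw [ht, ← sub_nonneg]
      have h3 : 1 - ((q - p * r) ^ 2 / Z ^ 2 + r ^ 2) =
          r ^ 2 * (1 - p ^ 2 - q ^ 2 - r ^ 2 + 2 * p * q * r) / Z ^ 2 := by
        have : Z ^ 2 ≠ 0 := by positivity
        field_simp
        rw [hZ2]
        ring
      rw [h3]
      positivity)
    have h4 : √(1 - (|q - p * r| / Z) ^ 2) = r * √(1 - p ^ 2) / Z := by
      rw [h1]
      exact sqrt_sq (by positivity)
    rw [h4] at h2
    have h5 : |q - p * r| / Z / (r * √(1 - p ^ 2) / Z) * (r / √(1 - r ^ 2))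
        = |q - p * r| / (√(1 - p ^ 2) * √(1 - r ^ 2)) := by
      field_simp
    rw [h5] at h2
    exact h2


/-- the case where the projection of the third vector changes side -/
lemma caseC (p q r : ℝ) (hp : p ^ 2 < 1) (hq0 : 0 ≤ q) (hq : q ^ 2 < 1) (hr0 : 0 ≤ r) (hr : r ^ 2 < 1)
    (hD : 0 ≤ 1 - p ^ 2 - q ^ 2 - r ^ 2 + 2 * p * q * r)
    (Z : ℝ) (hZ : 0 < Z) (hZ2 : Z ^ 2 = q ^ 2 + r ^ 2 - 2 * p * q * r) (hc : q < p * r) :
    arcsin (|p - q * r| / (√(1 - q ^ 2) * √(1 - r ^ 2))) - arcsin |p| ≤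
      (arcsin (|q - p * r| / Z / √(1 - r ^ 2)) - arcsin (|q - p * r| / Z))
      - (arcsin (|r - p * q| / Z / √(1 - q ^ 2)) - arcsin (|r - p * q| / Z)) := by
  have hu : 0 < √(1 - q ^ 2) := sqrt_pos.2 (by linarith)
  have hv : 0 < √(1 - r ^ 2) := sqrt_pos.2 (by linarith)
  have hm : 0 < √(1 - p ^ 2) := sqrt_pos.2 (by linarith)
  have hu2 : √(1 - q ^ 2) ^ 2 = 1 - q ^ 2 := sq_sqrt (by linarith)
  have hv2 : √(1 - r ^ 2) ^ 2 = 1 - r ^ 2 := sq_sqrt (by linarith)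
  have hm2 : √(1 - p ^ 2) ^ 2 = 1 - p ^ 2 := sq_sqrt (by linarith)
  set D := 1 - p ^ 2 - q ^ 2 - r ^ 2 + 2 * p * q * r with hDdef
  have hd0 : 0 ≤ √D := sqrt_nonneg _
  have hd2 : √D ^ 2 = D := sq_sqrt hD
  set u := √(1 - q ^ 2)
  set v := √(1 - r ^ 2)
  set m := √(1 - p ^ 2)
  set d := √D
  have hr1 : 0 < r := by
    rcases hr0.eq_or_lt with h | h
    · rw [← h] at hc; simp at hc; linarith
    · exact h
  have hp0 : 0 < p := by
    by_contra h
    push Not at h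
    nlinarith
  have hp1 : p < 1 := by nlinarith
  have h1 : 0 ≤ r - p * q := by
    have : p * q ≤ p * (p * r) := mul_le_mul_of_nonneg_left hc.le hp0.le
    nlinarith
  have h2 : 0 ≤ p - q * r := by
    have : q * r ≤ (p * r) * r := mul_le_mul_of_nonneg_right hc.le hr0
    nlinarith
  rw [abs_of_nonneg h2, abs_of_nonneg hp0.le, abs_of_nonneg h1,
    abs_of_neg (by linarith : q - p * r < 0), show -(q - p * r) = p * r - q by ring]
  have k1 := L1 ((p - q * r) / (u * v)) ((r - p * q) / Z / u) (d / (u * v)) (q * d / (Z * u))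
    ((p * r - q) / Z / v) (by positivity) (by positivity) (by positivity) (by positivity)
    (by
      field_simp
      rw [hd2, hDdef, hu2, hv2]
      ring)
    (by
      field_simp
      rw [hd2, hDdef, hu2, hZ2]
      ring)
    (by
      apply le_of_eq
      field_simp
      rw [hd2, hDdef, hu2]
      ring)
  have k2 := L3 p ((r - p * q) / Z) m (q * m / Z) ((p * r - q) / Z) hp0.le (by positivity) hm.le
    (by positivity) (by rw [hm2]; ring)
    (by
      field_simp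
      rw [hm2, hZ2]
      ring)
    (by
      apply le_of_eq
      field_simp
      rw [hm2]
      ring)
  linarith

lemma caseA (p q r : ℝ) (hp : p ^ 2 < 1) (hq0 : 0 ≤ q) (hq : q ^ 2 < 1) (hr0 : 0 ≤ r) (hr : r ^ 2 < 1)
    (hD : 0 ≤ 1 - p ^ 2 - q ^ 2 - r ^ 2 + 2 * p * q * r)
    (Z : ℝ) (hZ : 0 < Z) (hZ2 : Z ^ 2 = q ^ 2 + r ^ 2 - 2 * p * q * r) (h1 : 0 ≤ q - p * r)
    (h2 : 0 ≤ r - p * q) (h3 : 0 ≤ q * r - p) :
    arcsin (|p - q * r| / (√(1 - q ^ 2) * √(1 - r ^ 2))) - arcsin |p| ≤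
      (arcsin (|q - p * r| / Z / √(1 - r ^ 2)) - arcsin (|q - p * r| / Z))
      + (arcsin (|r - p * q| / Z / √(1 - q ^ 2)) - arcsin (|r - p * q| / Z)) := by
  have hu : 0 < √(1 - q ^ 2) := sqrt_pos.2 (by linarith)
  have hv : 0 < √(1 - r ^ 2) := sqrt_pos.2 (by linarith)
  have hm : 0 < √(1 - p ^ 2) := sqrt_pos.2 (by linarith)
  have hu2 : √(1 - q ^ 2) ^ 2 = 1 - q ^ 2 := sq_sqrt (by linarith)
  have hv2 : √(1 - r ^ 2) ^ 2 = 1 - r ^ 2 := sq_sqrt (by linarith)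
  have hm2 : √(1 - p ^ 2) ^ 2 = 1 - p ^ 2 := sq_sqrt (by linarith)
  set D := 1 - p ^ 2 - q ^ 2 - r ^ 2 + 2 * p * q * r with hDdef
  have hd0 : 0 ≤ √D := sqrt_nonneg _
  have hd2 : √D ^ 2 = D := sq_sqrt hD
  set u := √(1 - q ^ 2)
  set v := √(1 - r ^ 2)
  set m := √(1 - p ^ 2)
  set d := √D
  rw [abs_of_nonneg h1, abs_of_nonneg h2, abs_sub_comm, abs_of_nonneg h3]
  have k1 := L3 ((q - p * r) / Z / v) ((r - p * q) / Z / u) (r * d / (Z * v)) (q * d / (Z * u))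
    ((q * r - p) / (u * v)) (by positivity) (by positivity) (by positivity) (by positivity)
    (by
      field_simp
      rw [hd2, hDdef, hv2, hZ2]
      ring)
    (by
      field_simp
      rw [hd2, hDdef, hu2, hZ2]
      ring)
    (by
      apply le_of_eq
      field_simp
      rw [hd2, hDdef, hZ2]
      ring)
  have k2 := L1 ((q - p * r) / Z) ((r - p * q) / Z) (r * m / Z) (q * m / Z) |p| (by positivity)
    (by positivity) (by positivity) (by positivity)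
    (by
      field_simp
      rw [hm2, hZ2]
      ring)
    (by
      field_simp
      rw [hm2, hZ2]
      ring)
    (by
      have h4 : (q - p * r) / Z * ((r - p * q) / Z) - r * m / Z * (q * m / Z) = -p := by
        field_simp
        rw [hm2, hZ2]
        ring
      rw [h4]
      exact neg_le_abs p)
  rw [show q * r - p = q * r - p from rfl] at k1
  linarith

lemma caseB (p q r : ℝ) (hp0 : 0 ≤ p) (hq0 : 0 ≤ q) (hq : q ^ 2 < 1) (hr0 : 0 ≤ r) (hr : r ^ 2 < 1)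
    (hp : p ^ 2 < 1)
    (h1 : 0 ≤ q - p * r) (h2 : 0 ≤ r - p * q) (h3 : 0 ≤ p - q * r) :
    arcsin (|p - q * r| / (√(1 - q ^ 2) * √(1 - r ^ 2))) ≤ arcsin |p| := by
  have hu : 0 < √(1 - q ^ 2) := sqrt_pos.2 (by linarith)
  have hv : 0 < √(1 - r ^ 2) := sqrt_pos.2 (by linarith)
  have hu2 : √(1 - q ^ 2) ^ 2 = 1 - q ^ 2 := sq_sqrt (by linarith)
  have hv2 : √(1 - r ^ 2) ^ 2 = 1 - r ^ 2 := sq_sqrt (by linarith)
  apply arcsin_le_arcsin
  rw [abs_of_nonneg h3, abs_of_nonneg hp0, div_le_iff₀ (by positivity)]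
  apply le_of_sq_le_sq _ (by positivity)
  have e : (p * (√(1 - q ^ 2) * √(1 - r ^ 2))) ^ 2 = p ^ 2 * ((1 - q ^ 2) * (1 - r ^ 2)) := by
    rw [mul_pow, mul_pow, hu2, hv2]
  rw [e]
  have h4 : p ^ 2 * ((1 - q ^ 2) * (1 - r ^ 2)) - (p - q * r) ^ 2
      = p * ((q - p * r) * (r - p * q)) + q * r * (p - q * r) * (1 - p ^ 2) := by ring
  have h5 : 0 ≤ p * ((q - p * r) * (r - p * q)) := by positivity
  have h6 : 0 ≤ q * r * (p - q * r) * (1 - p ^ 2) := by
    apply mul_nonneg (by positivity) (by linarith)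
  linarith

lemma core (p q r : ℝ) (hp : p ^ 2 < 1) (hq0 : 0 ≤ q) (hq : q ^ 2 < 1) (hr0 : 0 ≤ r) (hr : r ^ 2 < 1)
    (hD : 0 ≤ 1 - p ^ 2 - q ^ 2 - r ^ 2 + 2 * p * q * r) :
    (π / 2) * arcsin (|p - q * r| / (√(1 - q ^ 2) * √(1 - r ^ 2))) ≤ (π / 2) * arcsin |p|
      + arcsin q * arcsin (|r - p * q| / (√(1 - p ^ 2) * √(1 - q ^ 2)))
      + arcsin r * arcsin (|q - p * r| / (√(1 - p ^ 2) * √(1 - r ^ 2))) := by
  by_cases h0 : q = 0 ∧ r = 0
  · obtain ⟨rfl, rfl⟩ := h0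
    simp
  have hZ2 : 0 < q ^ 2 + r ^ 2 - 2 * p * q * r := by
    have e : q ^ 2 + r ^ 2 - 2 * p * q * r = (q - p * r) ^ 2 + r ^ 2 * (1 - p ^ 2) := by ring
    rcases hr0.eq_or_lt with h | h
    · have hq' : q ≠ 0 := fun h' => h0 ⟨h', h.symm⟩
      rw [← h]
      have : 0 < q ^ 2 := by positivity
      nlinarith
    · rw [e]
      have : 0 < r ^ 2 * (1 - p ^ 2) := mul_pos (by positivity) (by linarith)
      positivity
  set Z := √(q ^ 2 + r ^ 2 - 2 * p * q * r) with hZdef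
  have hZ : 0 < Z := sqrt_pos.2 hZ2
  have hZZ : Z ^ 2 = q ^ 2 + r ^ 2 - 2 * p * q * r := sq_sqrt hZ2.le
  have R1 := right_step p q r hp hr0 hr hD Z hZ hZZ
  have R2 := right_step p r q hp hq0 hq (by linarith) Z hZ (by rw [hZZ]; ring)
  have hu : 0 < √(1 - q ^ 2) := sqrt_pos.2 (by linarith)
  have hv : 0 < √(1 - r ^ 2) := sqrt_pos.2 (by linarith)
  have M1 : arcsin (|q - p * r| / Z) ≤ arcsin (|q - p * r| / Z / √(1 - r ^ 2)) := by
    apply arcsin_le_arcsin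
    apply le_div_self (by positivity) hv
    exact sqrt_le_one.2 (by nlinarith)
  have M2 : arcsin (|r - p * q| / Z) ≤ arcsin (|r - p * q| / Z / √(1 - q ^ 2)) := by
    apply arcsin_le_arcsin
    apply le_div_self (by positivity) hu
    exact sqrt_le_one.2 (by nlinarith)
  have key : arcsin (|p - q * r| / (√(1 - q ^ 2) * √(1 - r ^ 2))) - arcsin |p| ≤
      (arcsin (|q - p * r| / Z / √(1 - r ^ 2)) - arcsin (|q - p * r| / Z))
      + (arcsin (|r - p * q| / Z / √(1 - q ^ 2)) - arcsin (|r - p * q| / Z)) := by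
    rcases lt_or_ge q (p * r) with hc | hc
    · have := caseC p q r hp hq0 hq hr0 hr hD Z hZ hZZ hc
      linarith
    · rcases lt_or_ge r (p * q) with hd | hd
      · have := caseC p r q hp hr0 hr hq0 hq (by linarith) Z hZ (by rw [hZZ]; ring) hd
        rw [mul_comm r q, mul_comm (√(1 - r ^ 2)) (√(1 - q ^ 2))] at this
        linarith
      · rcases le_total p (q * r) with h3 | h3
        · exact caseA p q r hp hq0 hq hr0 hr hD Z hZ hZZ (by linarith) (by linarith) (by linarith)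
        · have hp0 : 0 ≤ p := le_trans (by positivity) h3
          have := caseB p q r hp0 hq0 hq hr0 hr hp (by linarith) (by linarith) (by linarith)
          linarith
  have hR : 0 < π / 2 := by positivity
  have key' := mul_le_mul_of_nonneg_left key hR.le
  linarith

end Pool.Agent.H35.FTN
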