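import Pool.Agent.H35.FTN.TW

set_option autoImplicit false

/-!
# The three-vector inequality for vectors of a real inner product space
-/

namespace Pool.Agent.H35.FTN

open Real Set

/-- the real form of the inequality, without sign conditions -/
theorem tw_real (p q r : ℝ) (hp : p ^ 2 < 1) (hq : q ^ 2 < 1) (hr : r ^ 2 < 1)
    (hD : 0 ≤ 1 - p ^ 2 - q ^ 2 - r ^ 2 + 2 * p * q * r) :
    (π / 2) * arcsin (|p - q * r| / (√(1 - q ^ 2) * √(1 - r ^ 2))) ≤ (π / 2) * arcsin |p|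
      + arcsin |q| * arcsin (|r - p * q| / (√(1 - p ^ 2) * √(1 - q ^ 2)))
      + arcsin |r| * arcsin (|q - p * r| / (√(1 - p ^ 2) * √(1 - r ^ 2))) := by
  wlog hq0 : 0 ≤ q with H
  · have h := H (-p) (-q) r (by simpa using hp) (by simpa using hq) hr (by nlinarith) (by linarith)
    rw [show -p - -q * r = -(p - q * r) by ring, show r - -p * -q = r - p * q by ring,
      show -q - -p * r = -(q - p * r) by ring, abs_neg, abs_neg, abs_neg, abs_neg, neg_sq, neg_sq] at h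
    exact h
  wlog hr0 : 0 ≤ r with H
  · have h := H (-p) q (-r) (by simpa using hp) hq (by simpa using hr) (by nlinarith) hq0 (by linarith)
    rw [show -p - q * -r = -(p - q * r) by ring, show -r - -p * q = -(r - p * q) by ring,
      show q - -p * -r = q - p * r by ring, abs_neg, abs_neg, abs_neg, abs_neg, neg_sq, neg_sq] at h
    exact h
  rw [abs_of_nonneg hq0, abs_of_nonneg hr0]
  exact core p q r hp hq0 hq hr0 hr hD

variable {E : Type} [NormedAddCommGroup E] [InnerProductSpace ℝ E]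


/-- cosine of the angle -/
noncomputable def cs (u v : E) : ℝ := inner ℝ u v / (‖u‖ * ‖v‖)

/-- one minus the normalised acute angle -/
noncomputable def sv (u v : E) : ℝ := (2 / π) * arcsin |cs u v|

/-- component orthogonal to `x` -/
noncomputable def pr (x y : E) : E := y - (inner ℝ x y / ‖x‖ ^ 2) • x

lemma cs_comm (u v : E) : cs u v = cs v u := by
  unfold cs
  rw [real_inner_comm, mul_comm]

lemma sv_comm (u v : E) : sv u v = sv v u := by
  unfold sv
  rw [cs_comm]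

lemma sv_nonneg (u v : E) : 0 ≤ sv u v := by
  unfold sv
  have := arcsin_nonneg.2 (abs_nonneg (cs u v))
  positivity

lemma sv_le_one (u v : E) : sv u v ≤ 1 := by
  unfold sv
  have := arcsin_le_pi_div_two |cs u v|
  have h : (2 / π) * arcsin |cs u v| ≤ (2 / π) * (π / 2) := mul_le_mul_of_nonneg_left this (by positivity)
  have h' : (2 / π) * (π / 2) = 1 := by field_simp
  linarith

lemma cs_sq_lt (u v : E) (h : sv u v < 1) : cs u v ^ 2 < 1 := by
  by_contra hc
  push Not at hc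
  have h1 : 1 ≤ |cs u v| := by
    rw [← sq_abs] at hc
    nlinarith [abs_nonneg (cs u v)]
  unfold sv at h
  rw [arcsin_of_one_le h1] at h
  have h' : (2 / π) * (π / 2) = 1 := by field_simp
  linarith

lemma inner_eq (u v : E) (hu : u ≠ 0) (hv : v ≠ 0) : inner ℝ u v = cs u v * (‖u‖ * ‖v‖) := by
  unfold cs
  have h1 := norm_pos_iff.2 hu
  have h2 := norm_pos_iff.2 hv
  field_simp

lemma inner_pr (x y w : E) (hx : x ≠ 0) (hy : y ≠ 0) (hw : w ≠ 0) :
    inner ℝ (pr x y) (pr x w) = (cs y w - cs x w * cs x y) * (‖y‖ * ‖w‖) := by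
  have h1 := norm_pos_iff.2 hx
  unfold pr
  rw [inner_sub_left, inner_sub_right, inner_sub_right, real_inner_smul_left, real_inner_smul_left,
    real_inner_smul_right, real_inner_smul_right, real_inner_self_eq_norm_sq,
    real_inner_comm x y, inner_eq x y hx hy, inner_eq x w hx hw, inner_eq y w hy hw]
  field_simp
  ring

lemma norm_pr (x y : E) (hx : x ≠ 0) (hy : y ≠ 0) (h : cs x y ^ 2 < 1) :
    ‖pr x y‖ = ‖y‖ * √(1 - cs x y ^ 2) := by
  have h1 := norm_pos_iff.2 hx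
  have h2 := norm_pos_iff.2 hy
  have h3 : ‖pr x y‖ ^ 2 = (‖y‖ * √(1 - cs x y ^ 2)) ^ 2 := by
    rw [← real_inner_self_eq_norm_sq, inner_pr x y y hx hy hy, mul_pow, sq_sqrt (by linarith)]
    have : cs y y = 1 := by
      unfold cs
      rw [real_inner_self_eq_norm_sq]
      field_simp
    rw [this]
    ring
  exact (pow_left_inj₀ (norm_nonneg _) (by positivity) two_ne_zero).1 h3

lemma pr_ne_zero (x y : E) (hx : x ≠ 0) (hy : y ≠ 0) (h : sv x y < 1) : pr x y ≠ 0 := by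
  have h1 := cs_sq_lt x y h
  have h2 := norm_pos_iff.2 hy
  rw [← norm_pos_iff, norm_pr x y hx hy h1]
  have : 0 < √(1 - cs x y ^ 2) := sqrt_pos.2 (by linarith)
  positivity

lemma cs_pr (x y w : E) (hx : x ≠ 0) (hy : y ≠ 0) (hw : w ≠ 0) (h1 : cs x y ^ 2 < 1)
    (h2 : cs x w ^ 2 < 1) :
    cs (pr x y) (pr x w) = (cs y w - cs x w * cs x y) / (√(1 - cs x w ^ 2) * √(1 - cs x y ^ 2)) := by
  have e1 : cs (pr x y) (pr x w) = inner ℝ (pr x y) (pr x w) / (‖pr x y‖ * ‖pr x w‖) := rfl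
  rw [e1, inner_pr x y w hx hy hw, norm_pr x y hx hy h1, norm_pr x w hx hw h2]
  have n1 := norm_pos_iff.2 hy
  have n2 := norm_pos_iff.2 hw
  have n3 : 0 < √(1 - cs x y ^ 2) := sqrt_pos.2 (by linarith)
  have n4 : 0 < √(1 - cs x w ^ 2) := sqrt_pos.2 (by linarith)
  field_simp

lemma gram (x y w : E) (hx : x ≠ 0) (hy : y ≠ 0) (hw : w ≠ 0) (h1 : cs x y ^ 2 < 1)
    (h2 : cs x w ^ 2 < 1) :
    0 ≤ 1 - cs y w ^ 2 - cs x w ^ 2 - cs x y ^ 2 + 2 * cs y w * cs x w * cs x y := by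
  have h3 := abs_real_inner_le_norm (pr x y) (pr x w)
  rw [inner_pr x y w hx hy hw, norm_pr x y hx hy h1, norm_pr x w hx hw h2] at h3
  have n1 := norm_pos_iff.2 hy
  have n2 := norm_pos_iff.2 hw
  have e1 : √(1 - cs x y ^ 2) ^ 2 = 1 - cs x y ^ 2 := sq_sqrt (by linarith)
  have e2 : √(1 - cs x w ^ 2) ^ 2 = 1 - cs x w ^ 2 := sq_sqrt (by linarith)
  rw [abs_mul, abs_of_pos (by positivity : 0 < ‖y‖ * ‖w‖)] at h3
  have h4 : |cs y w - cs x w * cs x y| ≤ √(1 - cs x y ^ 2) * √(1 - cs x w ^ 2) := by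
    have h5 : |cs y w - cs x w * cs x y| * (‖y‖ * ‖w‖)
        ≤ (√(1 - cs x y ^ 2) * √(1 - cs x w ^ 2)) * (‖y‖ * ‖w‖) := by
      linarith
    exact le_of_mul_le_mul_right h5 (by positivity)
  have h6 : |cs y w - cs x w * cs x y| ^ 2 ≤ (√(1 - cs x y ^ 2) * √(1 - cs x w ^ 2)) ^ 2 :=
    pow_le_pow_left₀ (abs_nonneg _) h4 2
  rw [sq_abs, mul_pow, e1, e2] at h6
  nlinarith

/-- the three-vector inequality -/
theorem tw (x y w : E) (hx : x ≠ 0) (hy : y ≠ 0) (hw : w ≠ 0) (hxy : sv x y < 1) (hxw : sv x w < 1)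
    (hyw : sv y w < 1) :
    sv (pr x y) (pr x w) ≤ sv y w + sv x w * sv (pr w x) (pr w y) + sv x y * sv (pr y x) (pr y w) := by
  have r2 := cs_sq_lt x y hxy
  have q2 := cs_sq_lt x w hxw
  have p2 := cs_sq_lt y w hyw
  have h := tw_real (cs y w) (cs x w) (cs x y) p2 q2 r2 (gram x y w hx hy hw r2 q2)
  have e1 : |cs (pr x y) (pr x w)| =
      |cs y w - cs x w * cs x y| / (√(1 - cs x w ^ 2) * √(1 - cs x y ^ 2)) := by
    rw [cs_pr x y w hx hy hw r2 q2, abs_div, abs_of_nonneg (by positivity : 0 ≤ √(1 - cs x w ^ 2) * √(1 - cs x y ^ 2))]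
  have e2 : |cs (pr w x) (pr w y)| =
      |cs x y - cs y w * cs x w| / (√(1 - cs y w ^ 2) * √(1 - cs x w ^ 2)) := by
    rw [cs_pr w x y hw hx hy (by rw [cs_comm]; exact q2) (by rw [cs_comm]; exact p2), abs_div,
      abs_of_nonneg (by positivity : 0 ≤ √(1 - cs w y ^ 2) * √(1 - cs w x ^ 2)), cs_comm w y, cs_comm w x]
  have e3 : |cs (pr y x) (pr y w)| =
      |cs x w - cs y w * cs x y| / (√(1 - cs y w ^ 2) * √(1 - cs x y ^ 2)) := by
    rw [cs_pr y x w hy hx hw (by rw [cs_comm]; exact r2) p2, abs_div,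
      abs_of_nonneg (by positivity : 0 ≤ √(1 - cs y w ^ 2) * √(1 - cs y x ^ 2)), cs_comm y x]
  rw [← e1, ← e2, ← e3] at h
  unfold sv
  have hpi : 0 < (2 / π) ^ 2 := by positivity
  have h2 := mul_le_mul_of_nonneg_left h hpi.le
  have e4 : (2 / π) ^ 2 * (π / 2) = 2 / π := by field_simp
  calc (2 / π) * arcsin |cs (pr x y) (pr x w)|
      = (2 / π) ^ 2 * ((π / 2) * arcsin |cs (pr x y) (pr x w)|) := by rw [← mul_assoc, e4]
    _ ≤ _ := h2
    _ = (2 / π) ^ 2 * (π / 2) * arcsin |cs y w|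
        + (2 / π) * arcsin |cs x w| * ((2 / π) * arcsin |cs (pr w x) (pr w y)|)
        + (2 / π) * arcsin |cs x y| * ((2 / π) * arcsin |cs (pr y x) (pr y w)|) := by ring
    _ = _ := by rw [e4]

end Pool.Agent.H35.FTN
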